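import Pool.Agent.W595.Plane.Assemble
import Pool.Agent.W595.Plane.GeoMain
import Pool.Agent.W595.Plane.Hurwitz
import Pool.Agent.W595.Plane.Model
import Pool.Agent.W595.Plane.PlusAll
import Pool.Agent.W595.Plane.Stmt
import Pool.Agent.Y493.TP.Hur

/-!
# Tight immersions of manifolds like projective planes in the top dimension, for all `d ≥ 2`

A uniform classification, with `d` not restricted to `2`, `4`, `8` and no embedding assumption. It
contains the positive answers to both questions (the cases `d = 4` and `d = 8`); moreover such
immersions are injective, and they do not exist for `d ≠ 2, 4, 8` (this is proved from the geometry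
of tight immersions and the theorem of Hurwitz, without the theorem of Adams).

The geometric part is `Pool.Agent.W595.Plane.exists_td` and `Pool.Agent.W595.Plane.geo_of_td`, which
hold for all `d ≥ 2`; new are the theorem of Hurwitz in all dimensions, the case of the complex
numbers and the injectivity.
-/

set_option autoImplicit false

namespace Pool.Agent.Results.MP_3b4c52_gt.TightPlanesAllDimensions

open Pool.Agent.W595.Plane Pool.Agent.Y493.TP
open scoped Manifold ContDiff Quaternion

/-- Let `d ≥ 2`, let `M` be a closed smooth `2d`-manifold with the Betti numbers mod 2 of a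
projective plane (`β_0 = β_d = β_{2d} = 1`, all others zero), and let `f : M → E^{3d+2}` be a smooth
immersion which is tight and substantial. Then `f` is injective, `d` is `2`, `4` or `8`, and `f(M)`
is up to a projective transformation the standard model `{X ∈ Herm_3(K) | X² = X, tr X = 1}` with
`K` the complex numbers, the quaternions or the Cayley numbers, respectively. -/
theorem result (d : ℕ) (hd : 2 ≤ d) (M : Type) [TopologicalSpace M]
    [ChartedSpace (EuclideanSpace ℝ (Fin (2 * d))) M]
    (hM : ClosedManifold (EuclideanSpace ℝ (Fin (2 * d))) M) (hL : LikeProjectivePlane d M)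
    (f : M → EuclideanSpace ℝ (Fin (3 * d + 2)))
    (hf : SmoothImmersion (EuclideanSpace ℝ (Fin (2 * d))) f) (ht : Tight f)
    (hs : Substantial f) :
    Function.Injective f ∧
      (d = 2 ∧ ProjectivelyEquivalent (stdModel ℂ) (Set.range f) ∨
        d = 4 ∧ ProjectivelyEquivalent (stdModel ℍ[ℝ]) (Set.range f) ∨
        d = 8 ∧ ProjectivelyEquivalent (stdModel Oct) (Set.range f)) := by
  obtain ⟨h1, h2, h3⟩ := hM
  obtain ⟨D, hD⟩ := exists_td hd hL hf.1 hf.2 ht hs
  have hG : Geo d f := geo_of_td D f hD
  refine ⟨?_, ?_⟩
  · intro x y hxy
    by_contra hne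
    obtain ⟨ψ, p1, p2, p3⟩ := plus_all D x
    have h := D.F3 x ψ p1 p2 p3 y (fun h => hne h.symm)
    rw [hD, ← hxy, ← hD, p1] at h
    exact lt_irrefl _ h
  · rcases dim_of_geo hd hG with h | h | h
    · subst h
      exact Or.inl ⟨rfl, model_complex f hG⟩
    · subst h
      exact Or.inr (Or.inl ⟨rfl, model_quat f hG hurwitz_quat⟩)
    · subst h
      exact Or.inr (Or.inr ⟨rfl, model_oct f hG hurwitz_oct⟩)

end Pool.Agent.Results.MP_3b4c52_gt.TightPlanesAllDimensions
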